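import Mathlib

set_option autoImplicit false

namespace Pool.Agent.Helper913.EPat

universe u

section Basic
variable {S : Type} {V V' : Type}

/-- apply a substitution (terminals fixed) to a pattern -/
def app (σ : V → List S) (α : List (V ⊕ S)) : List S :=
  α.flatMap (Sum.elim σ (fun a => [a]))

/-- the erasing pattern language -/
def Lang (α : List (V ⊕ S)) : Set (List S) :=
  {w | ∃ σ : V → List S, w = app σ α}

/-- apply a morphism of patterns -/
def msub (φ : V → List (V' ⊕ S)) (α : List (V ⊕ S)) : List (V' ⊕ S) :=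
  α.flatMap (Sum.elim φ (fun a => [Sum.inr a]))

@[simp] theorem app_nil (σ : V → List S) : app σ [] = [] := rfl
@[simp] theorem app_inl (σ : V → List S) (v : V) (α : List (V ⊕ S)) :
    app σ (Sum.inl v :: α) = σ v ++ app σ α := by simp [app]
@[simp] theorem app_inr (σ : V → List S) (a : S) (α : List (V ⊕ S)) :
    app σ (Sum.inr a :: α) = a :: app σ α := by simp [app]
@[simp] theorem app_append (σ : V → List S) (α β : List (V ⊕ S)) :
    app σ (α ++ β) = app σ α ++ app σ β := by simp [app]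
@[simp] theorem msub_nil (σ : V → List (V' ⊕ S)) : msub σ [] = [] := rfl
@[simp] theorem msub_inl (σ : V → List (V' ⊕ S)) (v : V) (α : List (V ⊕ S)) :
    msub σ (Sum.inl v :: α) = σ v ++ msub σ α := by simp [msub]
@[simp] theorem msub_inr (σ : V → List (V' ⊕ S)) (a : S) (α : List (V ⊕ S)) :
    msub σ (Sum.inr a :: α) = Sum.inr a :: msub σ α := by simp [msub]
@[simp] theorem msub_append (σ : V → List (V' ⊕ S)) (α β : List (V ⊕ S)) :
    msub σ (α ++ β) = msub σ α ++ msub σ β := by simp [msub]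

theorem app_msub (σ : V' → List S) (φ : V → List (V' ⊕ S)) (α : List (V ⊕ S)) :
    app σ (msub φ α) = app (fun v => app σ (φ v)) α := by
  induction α with
  | nil => rfl
  | cons s α ih =>
    rcases s with v | a
    · simp [ih]
    · simp [ih]

theorem msub_msub {V'' : Type} (ψ : V' → List (V'' ⊕ S)) (φ : V → List (V' ⊕ S))
    (α : List (V ⊕ S)) :
    msub ψ (msub φ α) = msub (fun v => msub ψ (φ v)) α := by
  induction α with
  | nil => rfl
  | cons s α ih =>
    rcases s with v | a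
    · simp [ih]
    · simp [ih]

theorem app_congr {σ τ : V → List S} {α : List (V ⊕ S)}
    (h : ∀ v, Sum.inl v ∈ α → σ v = τ v) : app σ α = app τ α := by
  induction α with
  | nil => rfl
  | cons s α ih =>
    have ih' := ih (fun v hv => h v (List.mem_cons_of_mem _ hv))
    rcases s with v | a
    · simp [ih', h v (by simp)]
    · simp [ih']

/-- renaming variables injectively does not change the language -/
theorem Lang_map [Nonempty V] (f : V → V') (hf : Function.Injective f) (α : List (V ⊕ S)) :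
    Lang (α.map (Sum.map f id)) = Lang α := by
  have key : ∀ σ : V' → List S, app σ (α.map (Sum.map f id)) = app (fun v => σ (f v)) α := by
    intro σ
    induction α with
    | nil => rfl
    | cons s α ih =>
      rcases s with v | a
      · simp [ih]
      · simp [ih]
  ext w
  constructor
  · rintro ⟨σ, rfl⟩
    exact ⟨fun v => σ (f v), key σ⟩
  · rintro ⟨σ, rfl⟩
    refine ⟨fun v' => σ (Function.invFun f v'), ?_⟩
    rw [key]
    congr 1
    funext v
    rw [Function.leftInverse_invFun hf v]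

end Basic

/-- variables of the special pattern -/
abbrev Vr := Fin 3 ⊕ (ℕ × ℕ)

section Pat
variable {S : Type}

def vy (j : Fin 3) : Vr ⊕ S := Sum.inl (Sum.inl j)
def vv (i c : ℕ) : Vr ⊕ S := Sum.inl (Sum.inr (i, c))

def Y : List (Vr ⊕ S) := [vy 0, vy 0, vy 1, vy 1, vy 2, vy 2]

def hl (n i : ℕ) : List (Vr ⊕ S) := if i = n then [] else [vv i 5]
def uu (i : ℕ) : List (Vr ⊕ S) := if i = 0 then [] else vv i 4 :: (Y ++ [vv i 5, vv i 4])
def stuff (n i : ℕ) : List (Vr ⊕ S) := uu i ++ (Y ++ hl n (i + 1))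
def B1 (n i : ℕ) : List (Vr ⊕ S) := vv i 0 :: vv i 2 :: vv i 2 :: (stuff n i ++ [vv i 1])
def B2 (n i : ℕ) : List (Vr ⊕ S) := vv i 0 :: (stuff n i ++ [vv i 3, vv i 3, vv i 1])
def bp (n : ℕ) (T : ℕ → S) (i : ℕ) : List (Vr ⊕ S) :=
  vv i 6 :: Sum.inr (T i) :: (B1 n i ++ Sum.inr (T (i + 1)) :: vv i 7 :: vv i 8 ::
    Sum.inr (T i) :: (B2 n i ++ [Sum.inr (T (i + 1)), vv i 9]))
def al (n : ℕ) (T : ℕ → S) : List (Vr ⊕ S) := (List.range n).flatMap (bp n T)

theorem app_flatMap {V : Type} (σ : V → List S) (l : List ℕ) (f : ℕ → List (V ⊕ S)) :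
    app σ (l.flatMap f) = l.flatMap (fun i => app σ (f i)) := by
  induction l with
  | nil => rfl
  | cons a l ih => simp [ih]

theorem msub_flatMap {V V' : Type} (σ : V → List (V' ⊕ S)) (l : List ℕ)
    (f : ℕ → List (V ⊕ S)) :
    msub σ (l.flatMap f) = l.flatMap (fun i => msub σ (f i)) := by
  induction l with
  | nil => rfl
  | cons a l ih => simp [ih]

theorem app_al_congr (n : ℕ) (T : ℕ → S) {σ σ' : Vr → List S}
    (h : ∀ i < n, app σ' (bp n T i) = app σ (bp n T i)) :
    app σ' (al n T) = app σ (al n T) := by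
  unfold al
  rw [app_flatMap, app_flatMap]
  apply List.flatMap_congr
  intro i hi
  exact h i (List.mem_range.mp hi)

theorem app_bp (n : ℕ) (T : ℕ → S) (σ : Vr → List S) (i : ℕ) :
    app σ (bp n T i) = σ (Sum.inr (i, 6)) ++ T i :: (σ (Sum.inr (i, 0)) ++ (σ (Sum.inr (i, 2)) ++
      (σ (Sum.inr (i, 2)) ++ (app σ (uu i) ++ (app σ Y ++ (app σ (hl n (i + 1)) ++
      (σ (Sum.inr (i, 1)) ++ T (i + 1) :: (σ (Sum.inr (i, 7)) ++ (σ (Sum.inr (i, 8)) ++
      T i :: (σ (Sum.inr (i, 0)) ++ (app σ (uu i) ++ (app σ Y ++ (app σ (hl n (i + 1)) ++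
      (σ (Sum.inr (i, 3)) ++ (σ (Sum.inr (i, 3)) ++ (σ (Sum.inr (i, 1)) ++
      T (i + 1) :: σ (Sum.inr (i, 9)))))))))))))))))) := by
  simp [bp, B1, B2, stuff, vv]

theorem app_uu (σ : Vr → List S) (i : ℕ) :
    app σ (uu i) = if i = 0 then [] else
      σ (Sum.inr (i, 4)) ++ (app σ Y ++ (σ (Sum.inr (i, 5)) ++ σ (Sum.inr (i, 4)))) := by
  unfold uu
  split_ifs <;> simp [vv]

theorem app_hl (σ : Vr → List S) (n i : ℕ) :
    app σ (hl n i) = if i = n then [] else σ (Sum.inr (i, 5)) := by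
  unfold hl
  split_ifs <;> simp [vv]

/-- the new substitution when the letter `T j` occurs in the image of `Y` -/
def sg (n : ℕ) (T : ℕ → S) (σ : Vr → List S) (j : ℕ) (U P Q : List S) : Vr → List S
  | Sum.inl _ => []
  | Sum.inr (i, 0) => if i = j then Q else σ (Sum.inr (i, 0))
  | Sum.inr (i, 1) => if i + 1 = j then P else σ (Sum.inr (i, 1))
  | Sum.inr (i, 2) => if i = j then [] else σ (Sum.inr (i, 2))
  | Sum.inr (i, 3) => if i + 1 = j then [] else σ (Sum.inr (i, 3))
  | Sum.inr (i, 4) => if i < j then σ (Sum.inr (i, 4)) else if i = j then [] else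
      σ (Sum.inr (i, 4)) ++ U
  | Sum.inr (i, 5) => if i < j then U ++ σ (Sum.inr (i, 5)) else if i = j then [] else
      σ (Sum.inr (i, 5))
  | Sum.inr (i, 6) => if i = j then σ (Sum.inr (i, 6)) ++ T j :: (σ (Sum.inr (i, 0)) ++
      (σ (Sum.inr (i, 2)) ++ (σ (Sum.inr (i, 2)) ++ (app σ (uu i) ++ P)))) else
      σ (Sum.inr (i, 6))
  | Sum.inr (i, 7) => if i + 1 = j then Q ++ (app σ (hl n j) ++ (σ (Sum.inr (i, 1)) ++
      T j :: σ (Sum.inr (i, 7)))) else σ (Sum.inr (i, 7))
  | Sum.inr (i, 8) => if i = j then σ (Sum.inr (i, 8)) ++ T j :: (σ (Sum.inr (i, 0)) ++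
      (app σ (uu i) ++ P)) else σ (Sum.inr (i, 8))
  | Sum.inr (i, 9) => if i + 1 = j then Q ++ (app σ (hl n j) ++ (σ (Sum.inr (i, 3)) ++
      (σ (Sum.inr (i, 3)) ++ (σ (Sum.inr (i, 1)) ++ T j :: σ (Sum.inr (i, 9)))))) else
      σ (Sum.inr (i, 9))
  | Sum.inr (i, c) => σ (Sum.inr (i, c))

theorem app_sg_Y (n : ℕ) (T : ℕ → S) (σ : Vr → List S) (j : ℕ) (U P Q : List S) :
    app (sg n T σ j U P Q) Y = [] := by
  simp [Y, vy, sg]

theorem sg_case (n : ℕ) (T : ℕ → S) (σ : Vr → List S) (j : ℕ) (P Q : List S)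
    (hj : j ≤ n) (hU : app σ Y = P ++ T j :: Q) :
    app (sg n T σ j (app σ Y) P Q) (al n T) = app σ (al n T) := by
  apply app_al_congr
  intro i hi
  rw [app_bp, app_bp, app_sg_Y, app_uu, app_hl, app_sg_Y]
  rcases lt_trichotomy i j with hij | hij | hij
  · rcases Nat.lt_or_ge (i + 1) j with h1 | h1
    · -- whole, left type
      have e1 : i ≠ j := by omega
      have e2 : i + 1 ≠ j := by omega
      have e3 : i + 1 ≠ n := by omega
      simp only [sg, if_neg e1, if_neg e2, if_neg e3, if_pos hij, if_pos h1, app_uu, app_hl]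
      rcases Nat.eq_zero_or_pos i with h0 | h0
      · simp [h0]
      · simp [Nat.ne_of_gt h0]
    · have e2 : i + 1 = j := by omega
      have e1 : i ≠ j := by omega
      simp only [sg, if_neg e1, if_pos e2, if_pos hij, app_uu]
      have e4 : ¬ (i + 1 < j) := by omega
      simp only [if_neg e4, if_pos e2, e2, app_hl]
      rcases Nat.eq_zero_or_pos i with h0 | h0
      · subst h0
        simp [hU]
      · have h0' : i ≠ 0 := Nat.ne_of_gt h0
        simp [h0', hU]
  · subst hij
    have e2 : i + 1 ≠ i := by omega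
    have e4 : ¬ (i + 1 < i) := by omega
    simp only [sg, if_neg e2, if_neg e4, app_uu, app_hl, lt_irrefl, if_true, if_false]
    rcases Nat.eq_zero_or_pos i with h0 | h0
    · subst h0
      simp [hU]
    · have h0' : i ≠ 0 := Nat.ne_of_gt h0
      simp [h0', hU]
  · have e1 : i ≠ j := by omega
    have e2 : i + 1 ≠ j := by omega
    have e3 : ¬ (i < j) := by omega
    have e4 : ¬ (i + 1 < j) := by omega
    have h0 : i ≠ 0 := by omega
    simp only [sg, if_neg e1, if_neg e2, if_neg e3, if_neg e4, if_neg h0, app_uu, app_hl]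
    simp

/-- binary trick -/
theorem binary (d e : S) (a b c : List S) (h : ∀ x, (x ∈ a ∨ x ∈ b ∨ x ∈ c) → x = d ∨ x = e) :
    ∃ a' b' c' : List S, a' ++ (a' ++ (b' ++ (b' ++ (c' ++ c')))) =
      a ++ (a ++ (b ++ (b ++ (c ++ c)))) ∧ ∀ x ∈ c', x ∈ a' ∨ x ∈ b' := by
  classical
  by_cases hc : ∀ x ∈ c, x ∈ a ∨ x ∈ b
  · exact ⟨a, b, c, rfl, hc⟩
  · push Not at hc
    obtain ⟨x, hxc, hxa, hxb⟩ := hc
    -- all letters of a, b are the other letter
    obtain ⟨f, hf⟩ : ∃ f, ∀ y, (y ∈ a ∨ y ∈ b) → y = f := by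
      rcases h x (Or.inr (Or.inr hxc)) with rfl | rfl
      · refine ⟨e, fun y hy => ?_⟩
        rcases h y (by tauto) with rfl | rfl
        · exact absurd hy (by tauto)
        · rfl
      · refine ⟨d, fun y hy => ?_⟩
        rcases h y (by tauto) with rfl | rfl
        · rfl
        · exact absurd hy (by tauto)
    have ha : a = List.replicate a.length f :=
      List.eq_replicate_of_mem (fun y hy => hf y (Or.inl hy))
    have hb : b = List.replicate b.length f :=
      List.eq_replicate_of_mem (fun y hy => hf y (Or.inr hy))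
    refine ⟨List.replicate (a.length + b.length) f, c, [], ?_, by simp⟩
    rw [ha, hb]
    simp only [List.length_replicate, List.append_nil]
    simp only [← List.append_assoc, List.replicate_append_replicate]
    congr 3
    omega

/-- every word has a redundant substitution -/
theorem redundant (n : ℕ) (T : ℕ → S) (d e : S)
    (hsurj : ∀ c : S, c = d ∨ c = e ∨ ∃ j ≤ n, T j = c) (σ : Vr → List S) :
    ∃ σ' : Vr → List S, app σ' (al n T) = app σ (al n T) ∧
      ∀ c ∈ σ' (Sum.inl 2), c ∈ σ' (Sum.inl 0) ∨ c ∈ σ' (Sum.inl 1) := by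
  classical
  by_cases h : ∃ j ≤ n, T j ∈ app σ (Y : List (Vr ⊕ S))
  · obtain ⟨j, hj, hmem⟩ := h
    obtain ⟨P, Q, hPQ⟩ := List.append_of_mem hmem
    exact ⟨_, sg_case n T σ j P Q hj hPQ, by simp [sg]⟩
  · push Not at h
    have hde : ∀ x, x ∈ app σ (Y : List (Vr ⊕ S)) → x = d ∨ x = e := by
      intro x hx
      rcases hsurj x with rfl | rfl | ⟨j, hj, rfl⟩
      · exact Or.inl rfl
      · exact Or.inr rfl
      · exact absurd hx (h j hj)
    have hY : ∀ τ : Vr → List S, app τ (Y : List (Vr ⊕ S)) = τ (Sum.inl 0) ++ (τ (Sum.inl 0) ++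
        (τ (Sum.inl 1) ++ (τ (Sum.inl 1) ++ (τ (Sum.inl 2) ++ τ (Sum.inl 2))))) := by
      intro τ
      simp [Y, vy]
    obtain ⟨a', b', c', habc, hred⟩ := binary d e (σ (Sum.inl 0)) (σ (Sum.inl 1)) (σ (Sum.inl 2))
      (by
        intro x hx
        apply hde
        rw [hY]
        simp only [List.mem_append]
        tauto)
    refine ⟨fun v => match v with
      | Sum.inl 0 => a'
      | Sum.inl 1 => b'
      | Sum.inl 2 => c'
      | Sum.inr p => σ (Sum.inr p), ?_, ?_⟩
    · apply app_al_congr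
      intro i hi
      rw [app_bp, app_bp, app_uu, app_hl, app_uu, app_hl, hY, hY]
      simp only [habc]
    · simpa using hred

end Pat

end Pool.Agent.Helper913.EPat
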