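import Mathlib

set_option autoImplicit false

namespace Pool.Agent.Helper913.EPat

section Learn
variable {W G : Type}

theorem getD_of_prefix {l m : List W} (h : l <+: m) {i : ℕ} (hi : i < l.length) (x : W) :
    m.getD i x = l[i] := by
  obtain ⟨r, rfl⟩ := h
  rw [List.getD_eq_getElem _ _ (by simp; omega), List.getElem_append_left hi]

/-- learning in the limit needs finite tell-tales -/
theorem gold [Countable W] (L : G → Set W) (C : Set G) (g0 : G) (hg0 : g0 ∈ C)
    (hne : ∀ g ∈ C, (L g).Nonempty)
    (hno : ∀ s : List W, (∀ w ∈ s, w ∈ L g0) →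
      ∃ g ∈ C, (∀ w ∈ s, w ∈ L g) ∧ L g ⊆ L g0 ∧ L g ≠ L g0)
    (M : List W → G) :
    ¬ (∀ g ∈ C, ∀ t : ℕ → W, Set.range t = L g →
      ∃ b, L b = L g ∧ ∃ N : ℕ, ∀ n ≥ N, M ((List.range n).map t) = b) := by
  classical
  intro hM
  -- locking sequence
  have hlock : ∃ s : List W, (∀ w ∈ s, w ∈ L g0) ∧ L (M s) = L g0 ∧
      ∀ s' : List W, (∀ w ∈ s', w ∈ L g0) → M (s ++ s') = M s := by
    by_contra hcon
    have hneg : ∀ s : List W, (∀ w ∈ s, w ∈ L g0) → L (M s) = L g0 →
        ∃ s' : List W, (∀ w ∈ s', w ∈ L g0) ∧ M (s ++ s') ≠ M s := by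
      intro s hs hL
      by_contra hc
      apply hcon
      refine ⟨s, hs, hL, fun s' hs' => ?_⟩
      by_contra hne'
      exact hc ⟨s', hs', hne'⟩
    obtain ⟨e, he⟩ := (Set.to_countable (L g0)).exists_eq_range (hne g0 hg0)
    let ext : List W → List W := fun s =>
      if h : ∃ s' : List W, (∀ w ∈ s', w ∈ L g0) ∧ M (s ++ s') ≠ M s then h.choose else []
    have hext1 : ∀ s, ∀ w ∈ ext s, w ∈ L g0 := by
      intro s
      by_cases h : ∃ s' : List W, (∀ w ∈ s', w ∈ L g0) ∧ M (s ++ s') ≠ M s
      · simp only [ext, dif_pos h]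
        exact h.choose_spec.1
      · simp [ext, dif_neg h]
    have hext2 : ∀ s, (∃ s' : List W, (∀ w ∈ s', w ∈ L g0) ∧ M (s ++ s') ≠ M s) →
        M (s ++ ext s) ≠ M s := by
      intro s h
      simp only [ext, dif_pos h]
      exact h.choose_spec.2
    let sq : ℕ → List W := fun n => Nat.rec [] (fun n s => s ++ ext s ++ [e n]) n
    have hsq : ∀ n, sq (n + 1) = sq n ++ ext (sq n) ++ [e n] := fun n => rfl
    have hlen : ∀ n, n ≤ (sq n).length := by
      intro n
      induction n with
      | zero => simp
      | succ n ih => rw [hsq]; simp; omega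
    have hpre : ∀ m n, m ≤ n → sq m <+: sq n := by
      intro m n hmn
      induction n, hmn using Nat.le_induction with
      | base => exact List.prefix_refl _
      | succ n _ ih =>
        refine ih.trans ?_
        rw [hsq, List.append_assoc]
        exact List.prefix_append _ _
    have hmem : ∀ n, ∀ w ∈ sq n, w ∈ L g0 := by
      intro n
      induction n with
      | zero => intro w hw; simp [sq] at hw
      | succ n ih =>
        intro w hw
        rw [hsq] at hw
        simp only [List.mem_append, List.mem_singleton] at hw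
        rcases hw with (hw | hw) | hw
        · exact ih w hw
        · exact hext1 _ w hw
        · rw [hw, he]; exact ⟨n, rfl⟩
    let t : ℕ → W := fun i => (sq (i + 1)).getD i (e 0)
    have ht : ∀ (l : List W) (m : ℕ), l <+: sq m → (List.range l.length).map t = l := by
      intro l m hl
      apply List.ext_getElem
      · simp
      · intro i h1 h2
        simp only [List.getElem_map, List.getElem_range]
        have hi1 : i < (sq (i + 1)).length := lt_of_lt_of_le (Nat.lt_succ_self i) (hlen (i + 1))
        have e1 : (sq (max m (i + 1))).getD i (e 0) = l[i] :=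
          getD_of_prefix (hl.trans (hpre _ _ (le_max_left _ _))) h2 _
        have e2 : (sq (max m (i + 1))).getD i (e 0) = (sq (i + 1))[i] :=
          getD_of_prefix (hpre _ _ (le_max_right _ _)) hi1 _
        have e3 : t i = (sq (i + 1))[i] := List.getD_eq_getElem _ _ hi1
        rw [e3, ← e2, e1]
    have hrange : Set.range t = L g0 := by
      ext w
      constructor
      · rintro ⟨i, rfl⟩
        have hi1 : i < (sq (i + 1)).length := lt_of_lt_of_le (Nat.lt_succ_self i) (hlen (i + 1))
        have e3 : t i = (sq (i + 1))[i] := List.getD_eq_getElem _ _ hi1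
        rw [e3]
        exact hmem (i + 1) _ (List.getElem_mem hi1)
      · intro hw
        rw [he] at hw
        obtain ⟨n, rfl⟩ := hw
        have h1 : e n ∈ sq (n + 1) := by rw [hsq]; simp
        rw [← ht (sq (n + 1)) (n + 1) (List.prefix_refl _)] at h1
        obtain ⟨i, _, hi⟩ := List.mem_map.mp h1
        exact ⟨i, hi⟩
    obtain ⟨b, hb, N, hN⟩ := hM g0 hg0 t hrange
    have h1 : M (sq N) = b := by
      have := hN (sq N).length (hlen N)
      rwa [ht (sq N) N (List.prefix_refl _)] at this
    have h2 : M (sq N ++ ext (sq N)) = b := by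
      have := hN (sq N ++ ext (sq N)).length (by
        have := hlen N
        rw [List.length_append]
        omega)
      rwa [ht (sq N ++ ext (sq N)) (N + 1) (by rw [hsq]; exact List.prefix_append _ _)] at this
    have h3 := hneg (sq N) (hmem N) (by rw [h1, hb])
    exact hext2 _ h3 (h2.trans h1.symm)
  obtain ⟨s, hs, hsL, hsM⟩ := hlock
  obtain ⟨g, hg, hsg, hsub, hneq⟩ := hno s hs
  obtain ⟨e, he⟩ := (Set.to_countable (L g)).exists_eq_range (hne g hg)
  let t : ℕ → W := fun n => if h : n < s.length then s[n] else e (n - s.length)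
  have ht : ∀ m, (List.range (s.length + m)).map t = s ++ (List.range m).map e := by
    intro m
    apply List.ext_getElem
    · simp
    · intro i h1 h2
      simp only [List.getElem_map, List.getElem_range, t]
      by_cases hi : i < s.length
      · rw [dif_pos hi, List.getElem_append_left hi]
      · rw [dif_neg hi, List.getElem_append_right (by omega)]
        simp
  have hrange : Set.range t = L g := by
    ext w
    constructor
    · rintro ⟨i, rfl⟩
      by_cases hi : i < s.length
      · simp only [t, dif_pos hi]
        exact hsg _ (List.getElem_mem _)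
      · simp only [t, dif_neg hi]
        rw [he]; exact ⟨_, rfl⟩
    · intro hw
      rw [he] at hw
      obtain ⟨n, rfl⟩ := hw
      refine ⟨s.length + n, ?_⟩
      simp [t]
  obtain ⟨b, hb, N, hN⟩ := hM g hg t hrange
  have h1 := hN (s.length + N) (by omega)
  rw [ht, hsM] at h1
  · apply hneq
    rw [← hb, ← h1, hsL]
  · intro w hw
    obtain ⟨i, _, rfl⟩ := List.mem_map.mp hw
    apply hsub
    rw [he]
    exact ⟨i, rfl⟩

end Learn

end Pool.Agent.Helper913.EPat
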