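import Mathlib
import Pool.Agent.Helper913.EPatA

set_option autoImplicit false

namespace Pool.Agent.Helper913.EPat

section Scan
variable {S X : Type} [DecidableEq S]

/-- scanning transducer: reads runs of `e` between two `d` -/
def run (d e : S) (f : ℕ → Option X) : Option ℕ → List S → List (X ⊕ S)
  | _, [] => []
  | s, c :: w =>
    if c = d then ((s.bind f).elim [] (fun v => [Sum.inl v])) ++ run d e f (some 0) w
    else if c = e then run d e f (s.map (· + 1)) w
    else Sum.inr c :: run d e f none w

def st (d e : S) : Option ℕ → List S → Option ℕ
  | s, [] => s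
  | s, c :: w => if c = d then st d e (some 0) w else if c = e then st d e (s.map (· + 1)) w
      else st d e none w

def lead (e : S) : List S → ℕ
  | [] => 0
  | c :: w => if c = e then lead e w + 1 else 0

theorem run_append (d e : S) (f : ℕ → Option X) (s : Option ℕ) (u v : List S) :
    run d e f s (u ++ v) = run d e f s u ++ run d e f (st d e s u) v := by
  induction u generalizing s with
  | nil => simp [run, st]
  | cons c u ih =>
    simp only [List.cons_append, run, st]
    split_ifs
    · rw [ih, List.append_assoc]
    · rw [ih]
    · rw [ih]; rfl

theorem run_some_eq (d e : S) (hde : d ≠ e) (f : ℕ → Option X) (v : List S) :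
    ∀ i, f (i + lead e v) = none → run d e f (some i) v = run d e f none v := by
  induction v with
  | nil => intro i _; simp [run]
  | cons c v ih =>
    intro i hi
    by_cases h1 : c = d
    · subst h1
      have h0 : f i = none := by simpa [lead, hde] using hi
      simp [run, h0]
    · by_cases h2 : c = e
      · subst h2
        simp only [run, if_neg h1, if_true, Option.map_some, Option.map_none]
        apply ih
        simp only [lead, if_true] at hi
        rw [← hi]
        congr 1
        omega
      · simp [run, h1, h2]

/-- run lengths destroyed by the cuts of a factorisation -/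
def av (d e : S) : List (List S) → List ℕ
  | [] => []
  | u :: us => ((st d e none u).elim [] (fun i => [i + lead e us.flatten])) ++ av d e us

theorem av_length (d e : S) (us : List (List S)) : (av d e us).length ≤ us.length := by
  induction us with
  | nil => simp [av]
  | cons u us ih =>
    simp only [av, List.length_append, List.length_cons]
    have : ((st d e none u).elim ([] : List ℕ) (fun i => [i + lead e us.flatten])).length ≤ 1 := by
      cases st d e none u <;> simp
    omega

theorem run_flatten (d e : S) (hde : d ≠ e) (f : ℕ → Option X) (us : List (List S))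
    (h : ∀ m ∈ av d e us, f m = none) :
    run d e f none us.flatten = (us.map (run d e f none)).flatten := by
  induction us with
  | nil => simp [run]
  | cons u us ih =>
    have ih' := ih (fun m hm => h m (by simp only [av, List.mem_append]; exact Or.inr hm))
    rw [List.flatten_cons, run_append, List.map_cons, List.flatten_cons, ← ih']
    congr 1
    cases hs : st d e none u with
    | none => rfl
    | some i =>
      apply run_some_eq d e hde
      apply h
      simp [av, hs]

def seg (d e : S) (m : ℕ) : List S := d :: (List.replicate m e ++ [d])

theorem run_rep (d e : S) (hde : d ≠ e) (f : ℕ → Option X) (m i : ℕ) (rest : List S) :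
    run d e f (some i) (List.replicate m e ++ rest) = run d e f (some (i + m)) rest := by
  induction m generalizing i with
  | zero => simp
  | succ m ih =>
    rw [List.replicate_succ, List.cons_append]
    simp only [run, if_neg (Ne.symm hde), if_true, Option.map_some]
    rw [ih]
    congr 2
    omega

theorem run_seg (d e : S) (hde : d ≠ e) (f : ℕ → Option X) (s : Option ℕ)
    (hs : s.bind f = none) (m : ℕ) (rest : List S) :
    run d e f s (seg d e m ++ rest) =
      (f m).elim [] (fun v => [Sum.inl v]) ++ run d e f (some 0) rest := by
  unfold seg
  rw [List.cons_append, run, if_pos rfl, hs, List.append_assoc, run_rep d e hde]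
  simp only [Option.elim_none, List.nil_append, List.cons_append, zero_add]
  rw [run, if_pos rfl]
  simp

theorem run_segs (d e : S) (hde : d ≠ e) (f : ℕ → Option X) (hf0 : f 0 = none)
    (l : List ℕ) : ∀ (s : Option ℕ), s.bind f = none →
    ∃ s' : Option ℕ, s'.bind f = none ∧ ∀ rest : List S,
    run d e f s (l.flatMap (seg d e) ++ rest) =
      l.flatMap (fun m => (f m).elim [] (fun v => [Sum.inl v])) ++ run d e f s' rest := by
  induction l with
  | nil => intro s hs; exact ⟨s, hs, fun rest => by simp⟩
  | cons m l ih =>
    intro s hs
    obtain ⟨s', hs', h⟩ := ih (some 0) (by simpa using hf0)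
    refine ⟨s', hs', fun rest => ?_⟩
    rw [List.flatMap_cons, List.append_assoc, run_seg d e hde f s hs, h, List.flatMap_cons,
      List.append_assoc]

/-- the generic word of a variable -/
def gen [Encodable X] (d e : S) (N : ℕ) (x : X) : List S :=
  ((List.range N).map (fun i => Nat.pair (Encodable.encode x) i + 1)).flatMap (seg d e)

theorem run_gen [Encodable X] (d e : S) (hde : d ≠ e) (f : ℕ → Option X) (hf0 : f 0 = none)
    (N : ℕ)
    (hf : ∀ x : X, ((List.range N).map (fun i => Nat.pair (Encodable.encode x) i + 1)).flatMap
      (fun m => (f m).elim ([] : List (X ⊕ S)) (fun v => [Sum.inl v])) = [Sum.inl x])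
    (α : List (X ⊕ S)) (hα : ∀ a, Sum.inr a ∈ α → a ≠ d ∧ a ≠ e) :
    ∀ s : Option ℕ, s.bind f = none → run d e f s (app (gen d e N) α) = α := by
  induction α with
  | nil => intro s _; simp [run]
  | cons c α ih =>
    have ih' := ih (fun a ha => hα a (List.mem_cons_of_mem _ ha))
    intro s hs
    rcases c with x | a
    · rw [app_inl]
      obtain ⟨s', hs', h⟩ := run_segs d e hde f hf0
        ((List.range N).map (fun i => Nat.pair (Encodable.encode x) i + 1)) s hs
      have := h (app (gen d e N) α)
      unfold gen
      unfold gen at this ih'
      rw [this, hf x, ih' s' hs']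
      rfl
    · have ha := hα a (by simp)
      rw [app_inr, run, if_neg ha.1, if_neg ha.2, ih' none rfl]

theorem generic [Encodable X] {V : Type} (d e : S) (hde : d ≠ e)
    (α : List (X ⊕ S)) (hα : ∀ a, Sum.inr a ∈ α → a ≠ d ∧ a ≠ e)
    (β : List (V ⊕ S)) (hβ : ∀ a, Sum.inr a ∈ β → a ≠ d ∧ a ≠ e)
    (h : app (gen d e (β.length + 1)) α ∈ Lang β) :
    ∃ ψ : V → List (X ⊕ S), msub ψ β = α := by
  classical
  obtain ⟨τ, hτ⟩ := h
  set us : List (List S) := β.map (Sum.elim τ (fun a => [a])) with hus
  have hfl : us.flatten = app τ β := by
    rw [hus]; unfold app; rw [List.flatMap_def]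
  have hlen : us.length = β.length := by rw [hus]; simp
  set c : X → ℕ → ℕ := fun x i => Nat.pair (Encodable.encode x) i + 1 with hc
  have hcinj : ∀ x i y j, c x i = c y j → x = y ∧ i = j := by
    intro x i y j hxy
    simp only [hc, Nat.add_right_cancel_iff, Nat.pair_eq_pair] at hxy
    exact ⟨Encodable.encode_injective hxy.1, hxy.2⟩
  have hex : ∀ x : X, ∃ i < β.length + 1, c x i ∉ av d e us := by
    intro x
    by_contra hcon
    push Not at hcon
    have hnd : ((List.range (β.length + 1)).map (c x)).Nodup := by
      apply List.Nodup.map
      · intro i j hij
        exact (hcinj x i x j hij).2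
      · exact List.nodup_range
    have hsub : ((List.range (β.length + 1)).map (c x)) ⊆ av d e us := by
      intro m hm
      obtain ⟨i, hi, rfl⟩ := List.mem_map.mp hm
      exact hcon i (List.mem_range.mp hi)
    have h1 := (hnd.subperm hsub).length_le
    have h2 := av_length d e us
    simp only [List.length_map, List.length_range] at h1
    omega
  choose j hjlt hj using hex
  let f : ℕ → Option X := fun m => if h : ∃ x, c x (j x) = m then some h.choose else none
  have hfx : ∀ x i, f (c x i) = if i = j x then some x else none := by
    intro x i
    by_cases h : ∃ y, c y (j y) = c x i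
    · simp only [f, dif_pos h]
      have h1 := h.choose_spec
      obtain ⟨h2, h3⟩ := hcinj _ _ _ _ h1
      rw [h2] at h3
      rw [if_pos h3.symm, h2]
    · simp only [f, dif_neg h]
      rw [if_neg]
      rintro rfl
      exact h ⟨x, rfl⟩
  have hf0 : f 0 = none := by
    have : ¬ ∃ x, c x (j x) = 0 := by
      rintro ⟨x, hx⟩
      simp [hc] at hx
    simp only [f, dif_neg this]
  have hfav : ∀ m ∈ av d e us, f m = none := by
    intro m hm
    have : ¬ ∃ x, c x (j x) = m := by
      rintro ⟨x, rfl⟩
      exact hj x hm
    simp only [f, dif_neg this]
  have hrun1 := run_flatten d e hde f us hfav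
  have hrun2 := run_gen d e hde f hf0 (β.length + 1) (by
    intro x
    have : ∀ N, j x < N → ((List.range N).map (c x)).flatMap
        (fun m => (f m).elim ([] : List (X ⊕ S)) (fun v => [Sum.inl v])) = [Sum.inl x] := by
      intro N
      induction N with
      | zero => intro h; omega
      | succ N ih =>
        intro hN
        rw [List.range_succ, List.map_append, List.flatMap_append]
        by_cases hjN : j x = N
        · have hz : ((List.range N).map (c x)).flatMap
              (fun m => (f m).elim ([] : List (X ⊕ S)) (fun v => [Sum.inl v])) = [] := by
            rw [List.flatMap_eq_nil_iff]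
            intro m hm
            obtain ⟨i, hi, rfl⟩ := List.mem_map.mp hm
            have : i ≠ j x := by
              have := List.mem_range.mp hi
              omega
            rw [hfx, if_neg this]
            rfl
          rw [hz]
          simp [hfx, hjN]
        · rw [ih (by omega)]
          simp [hfx, Ne.symm hjN]
    exact this _ (hjlt x)) α hα none rfl
  refine ⟨fun v => run d e f none (τ v), ?_⟩
  rw [← hrun2, hτ, ← hfl, hrun1, hus]
  unfold msub
  rw [List.flatMap_def, List.map_map]
  congr 1
  apply List.map_congr_left
  intro s hs
  rcases s with v | a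
  · rfl
  · have ha := hβ a hs
    simp [run, ha.1, ha.2]

end Scan

end Pool.Agent.Helper913.EPat
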