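import Mathlib
import Pool.Agent.Helper913.EPatA
import Pool.Agent.Helper913.EPatScan
import Pool.Agent.Helper913.EPatLearn

set_option autoImplicit false

namespace Pool.Agent.Helper913.EPat

section Cnt
variable {A : Type}

open Classical in
/-- number of occurrences -/
noncomputable def cnt (s : A) : List A → ℕ
  | [] => 0
  | a :: l => (if a = s then 1 else 0) + cnt s l

@[simp] theorem cnt_nil (s : A) : cnt s [] = 0 := rfl
theorem cnt_self (s : A) (l : List A) : cnt s (s :: l) = 1 + cnt s l := by simp [cnt]
theorem cnt_ne {s a : A} (h : a ≠ s) (l : List A) : cnt s (a :: l) = cnt s l := by simp [cnt, h]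
theorem cnt_append (s : A) (l m : List A) : cnt s (l ++ m) = cnt s l + cnt s m := by
  induction l with
  | nil => simp
  | cons a l ih => simp only [List.cons_append, cnt, ih]; omega
theorem cnt_cons_le (s a : A) (l : List A) : cnt s l ≤ cnt s (a :: l) := by
  simp only [cnt]; omega
theorem cnt_pos {s : A} {l : List A} (h : s ∈ l) : 0 < cnt s l := by
  induction l with
  | nil => simp at h
  | cons a l ih =>
    rcases List.mem_cons.mp h with h | h
    · subst h; rw [cnt_self]; omega
    · have := ih h
      have := cnt_cons_le s a l
      omega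
theorem cnt_zero {s : A} {l : List A} (h : s ∉ l) : cnt s l = 0 := by
  induction l with
  | nil => simp
  | cons a l ih =>
    rw [cnt_ne, ih (fun hs => h (List.mem_cons_of_mem _ hs))]
    rintro rfl
    exact h (by simp)
theorem mem_of_cnt_pos {s : A} {l : List A} (h : 0 < cnt s l) : s ∈ l := by
  by_contra hs
  rw [cnt_zero hs] at h
  omega

end Cnt

section Count
variable {S : Type} {V V' : Type}

theorem count_msub_ge (ψ : V → List (V' ⊕ S)) (β : List (V ⊕ S)) (x : V) (s : V' ⊕ S)
    (hs : s ∈ ψ x) : cnt (Sum.inl x) β ≤ cnt s (msub ψ β) := by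
  induction β with
  | nil => simp
  | cons c β ih =>
    rcases c with v | a
    · by_cases hv : v = x
      · subst hv
        rw [cnt_self, msub_inl, cnt_append]
        have : 0 < cnt s (ψ v) := cnt_pos hs
        omega
      · rw [cnt_ne (by simpa using hv), msub_inl, cnt_append]
        omega
    · rw [cnt_ne (by simp), msub_inr]
      have := cnt_cons_le s (Sum.inr a) (msub ψ β)
      omega

theorem count_msub_ge2 (φ : V → List (V' ⊕ S)) (α : List (V ⊕ S)) (v v' : V) (hvv : v ≠ v')
    (s : V' ⊕ S) (h : s ∈ φ v) (h' : s ∈ φ v') :
    cnt (Sum.inl v) α + cnt (Sum.inl v') α ≤ cnt s (msub φ α) := by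
  induction α with
  | nil => simp
  | cons c α ih =>
    rcases c with w | a
    · by_cases hw : w = v
      · subst hw
        rw [cnt_self, msub_inl, cnt_append, cnt_ne (by simpa using hvv)]
        have : 0 < cnt s (φ w) := cnt_pos h
        omega
      · by_cases hw' : w = v'
        · subst hw'
          rw [cnt_self, msub_inl, cnt_append, cnt_ne (by simpa using hvv.symm)]
          have : 0 < cnt s (φ w) := cnt_pos h'
          omega
        · rw [cnt_ne (by simpa using hw), cnt_ne (by simpa using hw'), msub_inl, cnt_append]
          omega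
    · rw [cnt_ne (by simp), cnt_ne (by simp), msub_inr]
      have := cnt_cons_le s (Sum.inr a) (msub φ α)
      omega

theorem countP_msub_ge (θ : V → List (V' ⊕ S)) (α : List (V ⊕ S)) :
    α.countP Sum.isRight ≤ (msub θ α).countP Sum.isRight := by
  induction α with
  | nil => simp
  | cons c α ih =>
    rcases c with v | a
    · simp only [List.countP_cons, msub_inl, List.countP_append, Sum.isRight_inl]
      simp
      omega
    · simp only [List.countP_cons, msub_inr, Sum.isRight_inr]
      simp
      omega

theorem countP_msub_ge' (θ : V → List (V' ⊕ S)) (α : List (V ⊕ S)) (v : V)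
    (hv : Sum.inl v ∈ α) :
    α.countP Sum.isRight + (θ v).countP Sum.isRight ≤ (msub θ α).countP Sum.isRight := by
  induction α with
  | nil => simp at hv
  | cons c α ih =>
    rcases c with w | a
    · simp only [List.countP_cons, msub_inl, List.countP_append, Sum.isRight_inl]
      rcases List.mem_cons.mp hv with h | h
      · have hw : v = w := by simpa using h
        subst hw
        have := countP_msub_ge θ α
        simp
        omega
      · have := ih h
        simp
        omega
    · have h : Sum.inl v ∈ α := by simpa using hv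
      have := ih h
      simp only [List.countP_cons, msub_inr, Sum.isRight_inr]
      simp
      omega

theorem countP_msub_eq (θ : V → List (V' ⊕ S)) (α : List (V ⊕ S))
    (h : ∀ v, (θ v).countP Sum.isRight = 0) :
    (msub θ α).countP Sum.isRight = α.countP Sum.isRight := by
  induction α with
  | nil => simp
  | cons c α ih =>
    rcases c with v | a
    · simp only [List.countP_cons, msub_inl, List.countP_append, Sum.isRight_inl, h, ih]
      simp
    · simp only [List.countP_cons, msub_inr, Sum.isRight_inr, ih]

/-- all symbols are variables -/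
def AL (l : List (V ⊕ S)) : Prop := ∀ s ∈ l, s.isLeft

theorem AL.append {l m : List (V ⊕ S)} (hl : AL l) (hm : AL m) : AL (l ++ m) := by
  intro s hs
  rcases List.mem_append.mp hs with h | h
  · exact hl s h
  · exact hm s h

theorem AL_nil : AL ([] : List (V ⊕ S)) := by intro s hs; simp at hs

theorem AL_cons {v : V} {l : List (V ⊕ S)} (hl : AL l) : AL (Sum.inl v :: l) := by
  intro s hs
  rcases List.mem_cons.mp hs with h | h
  · rw [h]; rfl
  · exact hl s h

theorem AL_msub {θ : V → List (V' ⊕ S)} {l : List (V ⊕ S)} (hl : AL l)
    (h : ∀ v, Sum.inl v ∈ l → AL (θ v)) : AL (msub θ l) := by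
  induction l with
  | nil => exact AL_nil
  | cons c l ih =>
    have ih' := ih (fun s hs => hl s (List.mem_cons_of_mem _ hs))
      (fun v hv => h v (List.mem_cons_of_mem _ hv))
    rcases c with v | a
    · rw [msub_inl]
      exact (h v (by simp)).append ih'
    · have := hl (Sum.inr a) (by simp)
      simp at this

theorem split_term {A B : List (V ⊕ S)} {t t' : S} {A' B' : List (V ⊕ S)}
    (hA : AL A) (hB : AL B) (h : A ++ Sum.inr t :: A' = B ++ Sum.inr t' :: B') :
    A = B ∧ A' = B' := by
  induction A generalizing B with
  | nil =>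
    rcases B with _ | ⟨b, B⟩
    · simp at h
      exact ⟨rfl, h.2⟩
    · have hb := hB b (by simp)
      simp only [List.nil_append, List.cons_append, List.cons.injEq] at h
      rw [← h.1] at hb
      simp at hb
  | cons a A ih =>
    rcases B with _ | ⟨b, B⟩
    · have ha := hA a (by simp)
      simp only [List.nil_append, List.cons_append, List.cons.injEq] at h
      rw [h.1] at ha
      simp at ha
    · simp only [List.cons_append, List.cons.injEq] at h
      obtain ⟨h1, h2⟩ := ih (fun s hs => hA s (List.mem_cons_of_mem _ hs))
        (fun s hs => hB s (List.mem_cons_of_mem _ hs)) h.2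
      exact ⟨by rw [h.1, h1], h2⟩

end Count

section Lists
variable {A : Type}

theorem split_mem {q : A} {A1 B1 R1 R2 : List A} (h1 : q ∉ A1) (h2 : q ∉ B1)
    (h : A1 ++ q :: R1 = B1 ++ q :: R2) : A1 = B1 ∧ R1 = R2 := by
  induction A1 generalizing B1 with
  | nil =>
    rcases B1 with _ | ⟨b, B⟩
    · simp at h
      exact ⟨rfl, h⟩
    · simp only [List.nil_append, List.cons_append, List.cons.injEq] at h
      exact absurd (by rw [h.1]; simp) h2
  | cons a A1 ih =>
    rcases B1 with _ | ⟨b, B⟩
    · simp only [List.nil_append, List.cons_append, List.cons.injEq] at h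
      exact absurd (by rw [h.1]; simp) h1
    · simp only [List.cons_append, List.cons.injEq] at h
      obtain ⟨h3, h4⟩ := ih (fun hq => h1 (List.mem_cons_of_mem _ hq))
        (fun hq => h2 (List.mem_cons_of_mem _ hq)) h.2
      exact ⟨by rw [h.1, h3], h4⟩

theorem sq_end {q : A} {P B C : List A} (hB : q ∉ B) (hC : q ∉ C)
    (h : B ++ (P ++ P) = C ++ [q, q]) : B = C := by
  have hcnt := congrArg (cnt q) h
  simp only [cnt_append, cnt_zero hB, cnt_zero hC, cnt_self, cnt_nil] at hcnt
  have hP : q ∈ P := mem_of_cnt_pos (by omega)
  obtain ⟨s, t, rfl, hs⟩ := List.eq_append_cons_of_mem hP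
  have ht : cnt q t = 0 := by
    rw [cnt_append, cnt_self] at hcnt
    omega
  have h2 : (B ++ s) ++ q :: (t ++ (s ++ q :: t)) = C ++ q :: [q] := by
    simpa using h
  obtain ⟨h3, h4⟩ := split_mem (by simp [hB, hs]) hC h2
  have h5 := congrArg List.length h4
  simp only [List.length_append, List.length_cons, List.length_nil] at h5
  have hs0 : s = [] := List.length_eq_zero_iff.mp (by omega)
  rw [hs0, List.append_nil] at h3
  exact h3

end Lists

end Pool.Agent.Helper913.EPat
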