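import Mathlib
import Pool.Agent.Helper913.EPatMain

set_option autoImplicit false

namespace Pool.Agent.Helper913.EPat

section Strict
variable {S : Type}

/-- the projection of the pattern used for the generic word -/
def rho : Vr → List (Vr ⊕ S)
  | Sum.inl j => [vy j]
  | Sum.inr (i, 2) => [vv i 2]
  | Sum.inr (i, 3) => [vv i 3]
  | Sum.inr _ => []

def SS (i : ℕ) : List (Vr ⊕ S) := if i = 0 then Y else Y ++ Y

theorem msub_rho_Y : msub rho (Y : List (Vr ⊕ S)) = Y := by
  simp [Y, vy, rho]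

theorem msub_rho_stuff (n i : ℕ) : msub rho (stuff n i : List (Vr ⊕ S)) = SS i := by
  unfold stuff uu hl SS
  simp only [msub_append, msub_rho_Y]
  split_ifs <;> simp [vv, rho, msub_rho_Y]

theorem msub_rho_bp (n : ℕ) (T : ℕ → S) (i : ℕ) :
    msub rho (bp n T i) = Sum.inr (T i) :: (([vv i 2, vv i 2] ++ SS i) ++ Sum.inr (T (i + 1)) ::
      Sum.inr (T i) :: ((SS i ++ [vv i 3, vv i 3]) ++ [Sum.inr (T (i + 1))])) := by
  simp only [bp, B1, B2, vv, msub_inl, msub_inr, msub_append, List.cons_append, msub_rho_stuff]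
  simp [rho, vv]

theorem split_all (n : ℕ) (T : ℕ → S) (θ : Vr → List (Vr ⊕ S)) (hθ : ∀ v, AL (θ v))
    (l : List ℕ) : ∀ X : List (Vr ⊕ S), AL X →
    X ++ l.flatMap (fun i => msub θ (bp n T i)) = l.flatMap (fun i => msub rho (bp n T i)) →
    ∀ i ∈ l, msub θ (B1 n i) = [vv i 2, vv i 2] ++ SS i ∧
      msub θ (B2 n i) = SS i ++ [vv i 3, vv i 3] := by
  have hYL : AL (Y : List (Vr ⊕ S)) := by
    intro s hs
    simp only [Y, vy, List.mem_cons, List.not_mem_nil, or_false] at hs
    rcases hs with rfl | rfl | rfl | rfl | rfl | rfl <;> rfl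
  have hSS : ∀ i, AL (SS i : List (Vr ⊕ S)) := by
    intro i
    unfold SS
    split_ifs
    · exact hYL
    · exact hYL.append hYL
  have hv2 : ∀ i c : ℕ, AL ([vv i c, vv i c] : List (Vr ⊕ S)) := by
    intro i c
    exact AL_cons (AL_cons AL_nil)
  have hst : ∀ i, AL (stuff n i : List (Vr ⊕ S)) := by
    intro i
    unfold stuff
    refine AL.append ?_ (hYL.append ?_)
    · unfold uu
      split_ifs
      · exact AL_nil
      · exact AL_cons (hYL.append (AL_cons (AL_cons AL_nil)))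
    · unfold hl
      split_ifs
      · exact AL_nil
      · exact AL_cons AL_nil
  have hB1 : ∀ i, AL (B1 n i : List (Vr ⊕ S)) := fun i =>
    AL_cons (AL_cons (AL_cons ((hst i).append (AL_cons AL_nil))))
  have hB2 : ∀ i, AL (B2 n i : List (Vr ⊕ S)) := fun i =>
    AL_cons ((hst i).append (AL_cons (AL_cons (AL_cons AL_nil))))
  induction l with
  | nil => intro X _ _ i hi; simp at hi
  | cons j l ih =>
    intro X hX h
    have h' : (X ++ θ (Sum.inr (j, 6))) ++ Sum.inr (T j) :: (msub θ (B1 n j) ++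
        Sum.inr (T (j + 1)) :: ((θ (Sum.inr (j, 7)) ++ θ (Sum.inr (j, 8))) ++
        Sum.inr (T j) :: (msub θ (B2 n j) ++ Sum.inr (T (j + 1)) :: (θ (Sum.inr (j, 9)) ++
        l.flatMap (fun i => msub θ (bp n T i)))))) =
        [] ++ Sum.inr (T j) :: (([vv j 2, vv j 2] ++ SS j) ++ Sum.inr (T (j + 1)) :: ([] ++
        Sum.inr (T j) :: ((SS j ++ [vv j 3, vv j 3]) ++ Sum.inr (T (j + 1)) ::
        l.flatMap (fun i => msub rho (bp n T i))))) := by
      rw [List.flatMap_cons, List.flatMap_cons, msub_rho_bp] at h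
      simp only [bp, vv, msub_inl, msub_inr, msub_append, List.cons_append, List.append_assoc,
        List.nil_append, msub_nil, List.append_nil] at h ⊢
      exact h
    obtain ⟨_, h1⟩ := split_term (hX.append (hθ _)) AL_nil h'
    obtain ⟨e1, h2⟩ := split_term (AL_msub (hB1 j) (fun v _ => hθ v))
      ((hv2 j 2).append (hSS j)) h1
    obtain ⟨_, h3⟩ := split_term ((hθ _).append (hθ _)) AL_nil h2
    obtain ⟨e2, h4⟩ := split_term (AL_msub (hB2 j) (fun v _ => hθ v))
      ((hSS j).append (hv2 j 3)) h3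
    intro i hi
    rcases List.mem_cons.mp hi with rfl | hi
    · exact ⟨e1, e2⟩
    · exact ih _ (hθ _) h4 i hi

theorem SS_head (i : ℕ) : ∃ r, (SS i : List (Vr ⊕ S)) = vy 0 :: r := by
  unfold SS Y
  split_ifs
  · exact ⟨_, rfl⟩
  · exact ⟨_, rfl⟩

theorem SS_last (i : ℕ) : ∃ r, (SS i : List (Vr ⊕ S)) = r ++ [vy 2] := by
  unfold SS Y
  split_ifs
  · exact ⟨[vy 0, vy 0, vy 1, vy 1, vy 2], rfl⟩
  · exact ⟨[vy 0, vy 0, vy 1, vy 1, vy 2, vy 2, vy 0, vy 0, vy 1, vy 1, vy 2], rfl⟩

theorem SS_mem (i : ℕ) (p : ℕ × ℕ) : (Sum.inl (Sum.inr p) : Vr ⊕ S) ∉ (SS i : List (Vr ⊕ S)) := by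
  unfold SS Y vy
  split_ifs <;> simp

theorem stuff_eq (n i : ℕ) (θ : Vr → List (Vr ⊕ S))
    (h1 : msub θ (B1 n i) = [vv i 2, vv i 2] ++ SS i)
    (h2 : msub θ (B2 n i) = SS i ++ [vv i 3, vv i 3]) :
    msub θ (stuff n i) = SS i := by
  have e1 : θ (Sum.inr (i, 0)) ++ (θ (Sum.inr (i, 2)) ++ (θ (Sum.inr (i, 2)) ++
      (msub θ (stuff n i) ++ θ (Sum.inr (i, 1))))) = vv i 2 :: vv i 2 :: SS i := by
    simpa [B1, vv] using h1
  have e2 : θ (Sum.inr (i, 0)) ++ (msub θ (stuff n i) ++ (θ (Sum.inr (i, 3)) ++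
      (θ (Sum.inr (i, 3)) ++ θ (Sum.inr (i, 1))))) = SS i ++ [vv i 3, vv i 3] := by
    simpa [B2, vv] using h2
  have hz : θ (Sum.inr (i, 0)) = [] := by
    rcases hc : θ (Sum.inr (i, 0)) with _ | ⟨a, r⟩
    · rfl
    · rw [hc] at e1 e2
      obtain ⟨r', hr'⟩ := SS_head (S := S) i
      rw [hr'] at e2
      simp only [List.cons_append, List.cons.injEq] at e1 e2
      have := e1.1.symm.trans e2.1
      simp [vv, vy] at this
  have hz' : θ (Sum.inr (i, 1)) = [] := by
    rcases List.eq_nil_or_concat (θ (Sum.inr (i, 1))) with hc | ⟨r, a, hc⟩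
    · exact hc
    · rw [hc] at e1 e2
      obtain ⟨r', hr'⟩ := SS_last (S := S) i
      have e1' : (θ (Sum.inr (i, 0)) ++ (θ (Sum.inr (i, 2)) ++ (θ (Sum.inr (i, 2)) ++
          (msub θ (stuff n i) ++ r)))) ++ [a] = (vv i 2 :: vv i 2 :: r') ++ [vy 2] := by
        rw [hr'] at e1
        simpa using e1
      have e2' : (θ (Sum.inr (i, 0)) ++ (msub θ (stuff n i) ++ (θ (Sum.inr (i, 3)) ++
          (θ (Sum.inr (i, 3)) ++ r)))) ++ [a] = (SS i ++ [vv i 3]) ++ [vv i 3] := by
        simpa using e2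
      have f1 := (List.append_inj' e1' rfl).2
      have f2 := (List.append_inj' e2' rfl).2
      have := f1.symm.trans f2
      simp [vv, vy] at this
  rw [hz, hz'] at e1 e2
  simp only [List.nil_append, List.append_nil] at e1 e2
  apply sq_end (q := vv i 3) (P := θ (Sum.inr (i, 3)))
  · intro hmem
    have : (vv i 3 : Vr ⊕ S) ∈ (vv i 2 :: vv i 2 :: SS i : List (Vr ⊕ S)) := by
      rw [← e1]
      simp [hmem]
    have h3 := SS_mem (S := S) i (i, 3)
    simp [vv, h3] at this
  · exact SS_mem i (i, 3)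
  · exact e2

/-- the chain argument -/
theorem chain (n : ℕ) (hn : 1 ≤ n) (θ : Vr → List (Vr ⊕ S)) (h2 : θ (Sum.inl 2) = [])
    (h : ∀ i < n, msub θ (stuff n i) = SS i) : False := by
  have key : ∀ i, i < n → msub θ Y ++ msub θ (hl n (i + 1)) = Y := by
    intro i
    induction i with
    | zero =>
      intro h0
      have := h 0 h0
      simpa [stuff, uu, SS] using this
    | succ i ih =>
      intro hi
      have ih' := ih (by omega)
      have e := h (i + 1) hi
      have hh : msub θ (hl n (i + 1) : List (Vr ⊕ S)) = θ (Sum.inr (i + 1, 5)) := by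
        unfold hl
        rw [if_neg (by omega)]
        simp [vv]
      rw [hh] at ih'
      have e' : θ (Sum.inr (i + 1, 4)) ++ ((msub θ Y ++ θ (Sum.inr (i + 1, 5))) ++
          (θ (Sum.inr (i + 1, 4)) ++ (msub θ Y ++ msub θ (hl n (i + 1 + 1))))) = Y ++ Y := by
        have : (SS (i + 1) : List (Vr ⊕ S)) = Y ++ Y := by simp [SS]
        rw [this] at e
        rw [← e]
        simp [stuff, uu, vv]
      rw [ih'] at e'
      have hlen := congrArg List.length e'
      have hY6 : (Y : List (Vr ⊕ S)).length = 6 := rfl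
      simp only [List.length_append, hY6] at hlen
      have hK : θ (Sum.inr (i + 1, 4)) = [] := by
        rcases hc : θ (Sum.inr (i + 1, 4)) with _ | ⟨a, _ | ⟨b, _ | ⟨c, _ | ⟨d, r⟩⟩⟩⟩
        · rfl
        · rw [hc] at e'
          simp [Y, vy] at e'
        · rw [hc] at e'
          simp [Y, vy] at e'
        · rw [hc] at e'
          simp [Y, vy] at e'
        · rw [hc] at hlen
          simp only [List.length_cons] at hlen
          omega
      rw [hK] at e'
      simp only [List.nil_append] at e'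
      exact List.append_cancel_left e'
  have hlast := key (n - 1) (by omega)
  have hnn : n - 1 + 1 = n := by omega
  rw [hnn] at hlast
  have hnil : (hl n n : List (Vr ⊕ S)) = [] := by simp [hl]
  rw [hnil] at hlast
  have hY : θ (Sum.inl 0) ++ (θ (Sum.inl 0) ++ (θ (Sum.inl 1) ++ θ (Sum.inl 1))) =
      ([vy 0, vy 0, vy 1, vy 1, vy 2, vy 2] : List (Vr ⊕ S)) := by
    have : msub θ (Y : List (Vr ⊕ S)) = Y := by simpa using hlast
    simpa [Y, vy, h2] using this
  have hlen := congrArg List.length hY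
  simp only [List.length_append, List.length_cons, List.length_nil] at hlen
  rcases hc : θ (Sum.inl 0) with _ | ⟨a, _ | ⟨b, _ | ⟨c, _ | ⟨d, r⟩⟩⟩⟩ <;>
    rcases hc' : θ (Sum.inl 1) with _ | ⟨a', _ | ⟨b', _ | ⟨c', _ | ⟨d', r'⟩⟩⟩⟩ <;>
    rw [hc, hc'] at hY hlen <;> simp [vy] at hY hlen <;> try omega
  · have := hY.1.symm.trans hY.2.2.2.1
    simp at this
  · have := hY.2.1.symm.trans hY.2.2.2.1
    simp at this
  · have := hY.1.symm.trans hY.2.2.1
    simp at this
  · have := hY.1.symm.trans hY.2.2.2.1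
    simp at this

end Strict

end Pool.Agent.Helper913.EPat
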