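import Mathlib
import Pool.Agent.Helper913.EPatStrict
import Pool.Agent.Helper913.EPatScan
import Pool.Agent.Helper913.EPatLearn

set_option autoImplicit false

namespace Pool.Agent.Helper913.EPat

section Final
variable {S : Type}

theorem msub_congr {V V' : Type} {σ τ : V → List (V' ⊕ S)} {α : List (V ⊕ S)}
    (h : ∀ v, Sum.inl v ∈ α → σ v = τ v) : msub σ α = msub τ α := by
  induction α with
  | nil => rfl
  | cons s α ih =>
    have ih' := ih (fun v hv => h v (List.mem_cons_of_mem _ hv))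
    rcases s with v | a
    · simp [ih', h v (by simp)]
    · simp [ih']

theorem inr_mem_msub {V V' : Type} {φ : V → List (V' ⊕ S)} {α : List (V ⊕ S)} {a : S}
    (h : Sum.inr a ∈ msub φ α) : Sum.inr a ∈ α ∨ ∃ v, Sum.inr a ∈ φ v := by
  unfold msub at h
  obtain ⟨s, hs, hm⟩ := List.mem_flatMap.mp h
  rcases s with v | b
  · exact Or.inr ⟨v, hm⟩
  · left
    simp only [Sum.elim_inr, List.mem_singleton, Sum.inr.injEq] at hm
    rw [hm]; exact hs

theorem inr_mem_bp (n : ℕ) (T : ℕ → S) (i : ℕ) (a : S) (h : Sum.inr a ∈ bp n T i) :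
    a = T i ∨ a = T (i + 1) := by
  have h1 : (Sum.inr a : Vr ⊕ S) ∉ stuff n i := by
    unfold stuff uu hl Y vy vv
    split_ifs <;> simp
  simp [bp, B1, B2, vv, h1] at h
  tauto

theorem inr_mem_al (n : ℕ) (T : ℕ → S) (a : S) (h : Sum.inr a ∈ al n T) :
    ∃ j ≤ n, a = T j := by
  unfold al at h
  obtain ⟨i, hi, hm⟩ := List.mem_flatMap.mp h
  have hi' := List.mem_range.mp hi
  rcases inr_mem_bp n T i a hm with h | h
  · exact ⟨i, by omega, h⟩
  · exact ⟨i + 1, by omega, h⟩

theorem vy_mem_al (n : ℕ) (hn : 1 ≤ n) (T : ℕ → S) (j : Fin 3) : vy j ∈ al n T := by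
  unfold al
  rw [List.mem_flatMap]
  refine ⟨0, List.mem_range.mpr (by omega), ?_⟩
  fin_cases j <;> simp [bp, B1, stuff, uu, Y, vy, vv]

theorem cnt_flatMap_le {A B : Type} (s : A) (y : B) (l : List ℕ) (f : ℕ → List A)
    (g : ℕ → List B) (h : ∀ i, cnt s (f i) ≤ cnt y (g i)) :
    cnt s (l.flatMap f) ≤ cnt y (l.flatMap g) := by
  induction l with
  | nil => simp
  | cons a l ih =>
    rw [List.flatMap_cons, List.flatMap_cons, cnt_append, cnt_append]
    have := h a
    omega

theorem cnt_vy_vv (j : Fin 3) (i c : ℕ) (l : List (Vr ⊕ S)) :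
    cnt (vy j) (vv i c :: l) = cnt (vy j) l := cnt_ne (by simp [vy, vv]) _

theorem cnt_inl_inr (v : Vr) (a : S) (l : List (Vr ⊕ S)) :
    cnt (Sum.inl v) (Sum.inr a :: l) = cnt (Sum.inl v) l := cnt_ne (by simp) _

theorem cnt_vy_inr (j : Fin 3) (a : S) (l : List (Vr ⊕ S)) :
    cnt (vy j) (Sum.inr a :: l) = cnt (vy j) l := cnt_ne (by simp [vy]) _

theorem cnt_inr_vv (a : S) (i c : ℕ) (l : List (Vr ⊕ S)) :
    cnt (Sum.inr a) (vv i c :: l) = cnt (Sum.inr a) l := cnt_ne (by simp [vv]) _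

theorem cnt_cons_le1 {A : Type} (s a : A) (l : List A) : cnt s (a :: l) ≤ 1 + cnt s l := by
  simp only [cnt]
  split_ifs <;> omega

theorem cnt_Y (j : Fin 3) : cnt (vy j) (Y : List (Vr ⊕ S)) = 2 := by
  unfold Y
  fin_cases j <;> simp [cnt, vy]

theorem cnt_bp (n : ℕ) (T : ℕ → S) (i : ℕ) :
    cnt (vy 2) (bp n T i) = if i = 0 then 4 else 8 := by
  have h1 : cnt (vy 2 : Vr ⊕ S) (stuff n i) = if i = 0 then 2 else 4 := by
    unfold stuff uu hl
    split_ifs <;> simp only [cnt_append, cnt_Y, cnt_vy_vv, cnt_nil]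
  simp only [bp, B1, B2, List.cons_append, cnt_append, cnt_vy_vv, cnt_vy_inr, cnt_nil, h1]
  split_ifs <;> rfl

theorem cnt_rho (n : ℕ) (T : ℕ → S) (i : ℕ) (s : Vr ⊕ S) :
    cnt s (msub rho (bp n T i)) ≤ cnt (vy 2) (bp n T i) := by
  rw [cnt_bp, msub_rho_bp]
  have h4 : (4 : ℕ) ≤ if i = 0 then 4 else 8 := by split_ifs <;> omega
  rcases s with (j | p) | a
  · have h1 : cnt (vy j : Vr ⊕ S) (SS i) = if i = 0 then 2 else 4 := by
      unfold SS
      split_ifs <;> simp only [cnt_append, cnt_Y]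
    change cnt (vy j) _ ≤ _
    simp only [List.cons_append, cnt_append, cnt_vy_vv, cnt_vy_inr, cnt_nil, h1, List.nil_append]
    split_ifs <;> omega
  · have h1 : cnt (Sum.inl (Sum.inr p) : Vr ⊕ S) (SS i) = 0 := cnt_zero (SS_mem i p)
    have h2 : ∀ c : ℕ, cnt (Sum.inl (Sum.inr p) : Vr ⊕ S) [vv i c, vv i c] ≤ 2 := by
      intro c
      refine (cnt_cons_le1 _ _ _).trans ?_
      have := cnt_cons_le1 (Sum.inl (Sum.inr p) : Vr ⊕ S) (vv i c) []
      simp only [cnt_nil] at this
      omega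
    have e2 := h2 2
    have e3 := h2 3
    simp only [cnt_append, cnt_inl_inr, cnt_nil, h1]
    omega
  · have h1 : cnt (Sum.inr a : Vr ⊕ S) (SS i) = 0 := by
      apply cnt_zero
      unfold SS Y vy
      split_ifs <;> simp
    have f1 := cnt_cons_le1 (Sum.inr a : Vr ⊕ S) (Sum.inr (T (i + 1))) []
    have f2 := cnt_cons_le1 (Sum.inr a : Vr ⊕ S) (Sum.inr (T i))
      ((SS i ++ [vv i 3, vv i 3]) ++ [Sum.inr (T (i + 1))])
    have f3 := cnt_cons_le1 (Sum.inr a : Vr ⊕ S) (Sum.inr (T (i + 1))) (Sum.inr (T i) ::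
      ((SS i ++ [vv i 3, vv i 3]) ++ [Sum.inr (T (i + 1))]))
    have f4 := cnt_cons_le1 (Sum.inr a : Vr ⊕ S) (Sum.inr (T i)) (([vv i 2, vv i 2] ++ SS i) ++
      Sum.inr (T (i + 1)) :: Sum.inr (T i) :: ((SS i ++ [vv i 3, vv i 3]) ++
      [Sum.inr (T (i + 1))]))
    simp only [cnt_append, cnt_inr_vv, cnt_nil, h1] at f1 f2 f3 f4 ⊢
    omega

/-- morphism building the passe-partout -/
def phi (rs : List S → Vr → List S) (ws : List (List S)) :
    Vr → List ((Vr ⊕ (List S × S)) ⊕ S)
  | Sum.inl j => ws.flatMap (fun w => (rs w (Sum.inl j)).map (fun c => Sum.inl (Sum.inr (w, c))))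
  | Sum.inr p => [Sum.inl (Sum.inl (Sum.inr p))]

theorem phi_no_term (rs : List S → Vr → List S) (ws : List (List S)) (v : Vr) (a : S) :
    Sum.inr a ∉ phi rs ws v := by
  rcases v with j | p
  · simp [phi]
  · simp [phi]

theorem word_mem [DecidableEq S] (rs : List S → Vr → List S) (ws : List (List S))
    (hnd : ws.Nodup) (w : List S) (hw : w ∈ ws) (α : List (Vr ⊕ S)) (h : app (rs w) α = w) :
    w ∈ Lang (msub (phi rs ws) α) := by
  refine ⟨fun v => match v with
    | Sum.inl v => rs w v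
    | Sum.inr (w', c) => if w' = w then [c] else [], ?_⟩
  rw [app_msub]
  conv_lhs => rw [← h]
  apply app_congr
  intro v _
  rcases v with j | p
  · simp only [phi]
    have key : ∀ l : List (List S), l.Nodup → app (fun v => match v with
        | Sum.inl v => rs w v
        | Sum.inr (w', c) => if w' = w then [c] else [])
        (l.flatMap (fun w => (rs w (Sum.inl j)).map
          (fun c => (Sum.inl (Sum.inr (w, c)) : (Vr ⊕ (List S × S)) ⊕ S)))) =
        if w ∈ l then rs w (Sum.inl j) else [] := by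
      intro l hl
      induction l with
      | nil => simp
      | cons u l ih =>
        have hl' := (List.nodup_cons.mp hl)
        rw [List.flatMap_cons, app_append, ih hl'.2]
        have hmap : ∀ m : List S, app (fun v => match v with
            | Sum.inl v => rs w v
            | Sum.inr (w', c) => if w' = w then [c] else [])
            (m.map (fun c => (Sum.inl (Sum.inr (u, c)) : (Vr ⊕ (List S × S)) ⊕ S))) =
            if u = w then m else [] := by
          intro m
          induction m with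
          | nil => simp
          | cons c m ihm =>
            rw [List.map_cons, app_inl, ihm]
            by_cases huw : u = w <;> simp [huw]
        rw [hmap]
        by_cases huw : u = w
        · subst huw
          simp [hl'.1]
        · simp [huw, Ne.symm huw]
    rw [key ws hnd, if_pos hw]
  · simp [phi]

theorem strict [DecidableEq S] (n : ℕ) (hn : 1 ≤ n) (T : ℕ → S) (d e : S) (hde : d ≠ e)
    (hT : ∀ j ≤ n, T j ≠ d ∧ T j ≠ e) (rs : List S → Vr → List S) (ws : List (List S))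
    (hrs : ∀ w ∈ ws, ∀ c ∈ rs w (Sum.inl 2), c ∈ rs w (Sum.inl 0) ∨ c ∈ rs w (Sum.inl 1)) :
    Lang (msub (phi rs ws) (al n T)) ≠ Lang (al n T) := by
  classical
  intro heq
  set β := msub (phi rs ws) (al n T) with hβ
  have hα0 : ∀ a, Sum.inr a ∈ msub rho (al n T) → a ≠ d ∧ a ≠ e := by
    intro a ha
    rcases inr_mem_msub ha with h | ⟨v, hv⟩
    · obtain ⟨j, hj, rfl⟩ := inr_mem_al n T a h
      exact hT j hj
    · exfalso
      revert hv
      unfold rho
      split <;> simp [vy, vv]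
  have hβt : ∀ a, Sum.inr a ∈ β → a ≠ d ∧ a ≠ e := by
    intro a ha
    rcases inr_mem_msub ha with h | ⟨v, hv⟩
    · obtain ⟨j, hj, rfl⟩ := inr_mem_al n T a h
      exact hT j hj
    · exact absurd hv (phi_no_term rs ws v a)
  obtain ⟨ψ, hψ⟩ := generic (X := Vr) d e hde (msub rho (al n T)) hα0 β hβt (by
    rw [heq, app_msub]
    exact ⟨_, rfl⟩)
  rw [hβ, msub_msub] at hψ
  set θ : Vr → List (Vr ⊕ S) := fun v => msub ψ (phi rs ws v) with hθ
  -- no terminals in the images
  have hcp : (msub θ (al n T)).countP Sum.isRight = (al n T).countP Sum.isRight := by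
    rw [hψ]
    apply countP_msub_eq
    intro v
    unfold rho
    split <;> simp [vy, vv]
  have hAL : ∀ v, Sum.inl v ∈ al n T → AL (θ v) := by
    intro v hv
    have h1 := countP_msub_ge' θ (al n T) v hv
    rw [hcp] at h1
    have h2 : (θ v).countP Sum.isRight = 0 := by omega
    rw [List.countP_eq_zero] at h2
    intro s hs
    have := h2 s hs
    rcases s with s | s
    · rfl
    · simp at this
  set θ' : Vr → List (Vr ⊕ S) := fun v => if AL (θ v) then θ v else [] with hθ'
  have hθ'AL : ∀ v, AL (θ' v) := by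
    intro v
    simp only [hθ']
    split_ifs with h
    · exact h
    · exact AL_nil
  have hmθ' : msub θ' (al n T) = msub rho (al n T) := by
    rw [← hψ]
    apply msub_congr
    intro v hv
    simp only [hθ']
    rw [if_pos (hAL v hv)]
  -- the third variable is erased
  have hy2 : θ (Sum.inl 2) = [] := by
    have hψ0 : ∀ w ∈ ws, ∀ c ∈ rs w (Sum.inl 2), ψ (Sum.inr (w, c)) = [] := by
      intro w hw c hc
      by_contra hne
      obtain ⟨s, hs⟩ := List.exists_mem_of_ne_nil _ hne
      have g1 := count_msub_ge ψ β (Sum.inr (w, c)) s hs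
      have g2 : cnt s (msub ψ β) ≤ cnt (vy 2) (al n T) := by
        rw [hβ, msub_msub, hψ]
        unfold al
        rw [msub_flatMap]
        exact cnt_flatMap_le _ _ _ _ _ (fun i => cnt_rho n T i s)
      have hm : ∀ j : Fin 3, c ∈ rs w (Sum.inl j) →
          (Sum.inl (Sum.inr (w, c)) : (Vr ⊕ (List S × S)) ⊕ S) ∈ phi rs ws (Sum.inl j) := by
        intro j hj
        simp only [phi, List.mem_flatMap, List.mem_map]
        exact ⟨w, hw, c, hj, rfl⟩
      rcases hrs w hw c hc with h0 | h0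
      · have g3 := count_msub_ge2 (phi rs ws) (al n T) (Sum.inl 2) (Sum.inl 0) (by simp)
          (Sum.inl (Sum.inr (w, c))) (hm 2 hc) (hm 0 h0)
        have g4 := cnt_pos (vy_mem_al n hn T 0)
        simp only [vy] at g2 g4
        rw [← hβ] at g3
        omega
      · have g3 := count_msub_ge2 (phi rs ws) (al n T) (Sum.inl 2) (Sum.inl 1) (by simp)
          (Sum.inl (Sum.inr (w, c))) (hm 2 hc) (hm 1 h0)
        have g4 := cnt_pos (vy_mem_al n hn T 1)
        simp only [vy] at g2 g4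
        rw [← hβ] at g3
        omega
    simp only [hθ, phi, msub]
    rw [List.flatMap_eq_nil_iff]
    intro s hs
    obtain ⟨w, hw, hs'⟩ := List.mem_flatMap.mp hs
    obtain ⟨c, hc, rfl⟩ := List.mem_map.mp hs'
    simpa using hψ0 w hw c hc
  have hy2' : θ' (Sum.inl 2) = [] := by
    simp only [hθ']
    split_ifs
    · exact hy2
    · rfl
  have hsplit := split_all n T θ' hθ'AL (List.range n) [] AL_nil (by
    have := hmθ'
    unfold al at this
    rw [msub_flatMap, msub_flatMap] at this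
    simpa using this)
  exact chain n hn θ' hy2' (fun i hi => stuff_eq n i θ' (hsplit i (List.mem_range.mpr hi)).1
    (hsplit i (List.mem_range.mpr hi)).2)

/-- no finite set of words is a tell-tale -/
theorem no_telltale [DecidableEq S] (n : ℕ) (hn : 1 ≤ n) (T : ℕ → S) (d e : S) (hde : d ≠ e)
    (hT : ∀ j ≤ n, T j ≠ d ∧ T j ≠ e) (hsurj : ∀ c : S, c = d ∨ c = e ∨ ∃ j ≤ n, T j = c)
    (s : List (List S)) (hs : ∀ w ∈ s, w ∈ Lang (al n T)) :
    ∃ β : List ((Vr ⊕ (List S × S)) ⊕ S), (∀ w ∈ s, w ∈ Lang β) ∧ Lang β ⊆ Lang (al n T) ∧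
      Lang β ≠ Lang (al n T) ∧ (∀ a, Sum.inr a ∈ β → Sum.inr a ∈ al n T) ∧ β ≠ [] := by
  classical
  have hex : ∀ w : List S, ∃ σ : Vr → List S, w ∈ Lang (al n T) →
      (app σ (al n T) = w ∧ ∀ c ∈ σ (Sum.inl 2), c ∈ σ (Sum.inl 0) ∨ c ∈ σ (Sum.inl 1)) := by
    intro w
    by_cases hw : w ∈ Lang (al n T)
    · obtain ⟨σ, rfl⟩ := hw
      obtain ⟨σ', h1, h2⟩ := redundant n T d e hsurj σ
      exact ⟨σ', fun _ => ⟨h1, h2⟩⟩
    · exact ⟨fun _ => [], fun h => absurd h hw⟩
  choose rs hrs using hex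
  refine ⟨msub (phi rs s.dedup) (al n T), ?_, ?_, ?_, ?_, ?_⟩
  · intro w hw
    exact word_mem rs _ (List.nodup_dedup s) w (List.mem_dedup.mpr hw) _ (hrs w (hs w hw)).1
  · rintro w ⟨σ, rfl⟩
    rw [app_msub]
    exact ⟨_, rfl⟩
  · apply strict n hn T d e hde hT
    intro w hw
    exact (hrs w (hs w (List.mem_dedup.mp hw))).2
  · intro a ha
    rcases inr_mem_msub ha with h | ⟨v, hv⟩
    · exact h
    · exact absurd hv (phi_no_term _ _ v a)
  · intro h0
    have : (al n T) ≠ [] := by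
      intro h
      have := vy_mem_al n hn T 0
      rw [h] at this
      simp at this
    have h1 := countP_msub_ge (phi rs s.dedup) (al n T)
    rw [h0] at h1
    have h2 : Sum.inr (T 0) ∈ al n T := by
      unfold al
      rw [List.mem_flatMap]
      refine ⟨0, List.mem_range.mpr (by omega), ?_⟩
      simp [bp]
    have h3 : 0 < (al n T).countP Sum.isRight := by
      rw [List.countP_pos_iff]
      exact ⟨_, h2, rfl⟩
    rw [List.countP_nil] at h1
    omega

end Final

/-- No learner (computable or not) identifies all erasing pattern languages of quasi-terminal-free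
patterns over an alphabet with `n + 3` letters, `n ≥ 1`. -/
theorem not_learnable (n : ℕ) (hn : 1 ≤ n)
    (M : List (List (Fin (n + 3))) → List (ℕ ⊕ Fin (n + 3))) :
    ¬ (∀ α : List (ℕ ⊕ Fin (n + 3)), α ≠ [] →
      (∃ a b : Fin (n + 3), a ≠ b ∧ Sum.inr a ∉ α ∧ Sum.inr b ∉ α) →
      ∀ t : ℕ → List (Fin (n + 3)), Set.range t = Lang α →
        ∃ β : List (ℕ ⊕ Fin (n + 3)), Lang β = Lang α ∧
          ∃ N : ℕ, ∀ m ≥ N, M ((List.range m).map t) = β) := by
  classical
  intro hM
  let d : Fin (n + 3) := ⟨n + 1, by omega⟩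
  let e : Fin (n + 3) := ⟨n + 2, by omega⟩
  have hde : d ≠ e := by simp [d, e]
  let T : ℕ → Fin (n + 3) := fun j => if h : j ≤ n then ⟨j, by omega⟩ else d
  have hT : ∀ j ≤ n, T j ≠ d ∧ T j ≠ e := by
    intro j hj
    simp only [T, dif_pos hj, d, e, ne_eq, Fin.mk.injEq]
    omega
  have hsurj : ∀ c : Fin (n + 3), c = d ∨ c = e ∨ ∃ j ≤ n, T j = c := by
    intro c
    by_cases h1 : c.val ≤ n
    · right; right
      refine ⟨c.val, h1, ?_⟩
      simp [T, h1]
    · by_cases h2 : c.val = n + 1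
      · left
        ext
        simp [d, h2]
      · right; left
        ext
        have := c.isLt
        simp only [e]
        omega
  let ren : ∀ {V : Type} [Encodable V], List (V ⊕ Fin (n + 3)) → List (ℕ ⊕ Fin (n + 3)) :=
    fun {V} _ α => α.map (Sum.map Encodable.encode id)
  have hren : ∀ {V : Type} [Encodable V] [Nonempty V] (α : List (V ⊕ Fin (n + 3))),
      Lang (ren α) = Lang α := by
    intro V _ _ α
    exact Lang_map _ Encodable.encode_injective α
  have hrenr : ∀ {V : Type} [Encodable V] (α : List (V ⊕ Fin (n + 3))) (a : Fin (n + 3)),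
      Sum.inr a ∈ ren α → Sum.inr a ∈ α := by
    intro V _ α a ha
    obtain ⟨s, hs, hsa⟩ := List.mem_map.mp ha
    rcases s with v | b
    · simp at hsa
    · simp at hsa
      rw [← hsa]; exact hs
  have hnoT : ∀ c : Fin (n + 3), (c = d ∨ c = e) → Sum.inr c ∉ al n T := by
    intro c hc hmem
    obtain ⟨j, hj, rfl⟩ := inr_mem_al n T c hmem
    rcases hc with h | h
    · exact (hT j hj).1 h
    · exact (hT j hj).2 h
  refine gold (W := List (Fin (n + 3))) (G := List (ℕ ⊕ Fin (n + 3))) Lang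
    {α | α ≠ [] ∧ ∃ a b : Fin (n + 3), a ≠ b ∧ Sum.inr a ∉ α ∧ Sum.inr b ∉ α}
    (ren (al n T)) ?_ ?_ ?_ M ?_
  · refine ⟨?_, d, e, hde, ?_, ?_⟩
    · intro h
      have h1 : (al n T) = [] := by simpa [ren] using h
      have := vy_mem_al n hn T 0
      rw [h1] at this
      simp at this
    · exact fun h => hnoT d (Or.inl rfl) (hrenr _ _ h)
    · exact fun h => hnoT e (Or.inr rfl) (hrenr _ _ h)
  · intro g _
    exact ⟨_, fun _ => [], rfl⟩
  · intro s hs
    obtain ⟨β, hβ1, hβ2, hβ3, hβ4, hβ5⟩ := no_telltale n hn T d e hde hT hsurj s (by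
      intro w hw
      rw [← hren (al n T)]
      exact hs w hw)
    refine ⟨ren β, ⟨?_, d, e, hde, ?_, ?_⟩, ?_, ?_, ?_⟩
    · intro h
      apply hβ5
      simpa [ren] using h
    · exact fun h => hnoT d (Or.inl rfl) (hβ4 _ (hrenr _ _ h))
    · exact fun h => hnoT e (Or.inr rfl) (hβ4 _ (hrenr _ _ h))
    · intro w hw
      rw [hren]
      exact hβ1 w hw
    · rw [hren, hren]
      exact hβ2
    · rw [hren, hren]
      exact hβ3
  · rintro g ⟨hg1, hg2⟩ t ht
    exact hM g hg1 hg2 t ht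

end Pool.Agent.Helper913.EPat
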